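import Mathlib

set_option autoImplicit false

open Set Topology Filter Cardinal

namespace Pool.Agent.Results.MP_96acc4_lc.Prime

/-- The Rudin–Keisler preorder between ultrafilters on arbitrary sets. -/
def LeRK {X Y : Type} (u : Ultrafilter Y) (v : Ultrafilter X) : Prop := ∃ f : X → Y, v.map f = u

/-- Non-principal ultrafilters. -/
def Free {X : Type} (u : Ultrafilter X) : Prop := ∀ x, u ≠ pure x

/-- Weak `P_{κ⁺}`-points of `ω*` (`Ultrafilter ℕ` carries the Stone topology). -/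
def WeakP (κ : Cardinal.{0}) (u : Ultrafilter ℕ) : Prop :=
  Free u ∧ ∀ F : Set (Ultrafilter ℕ), (∀ w ∈ F, Free w ∧ w ≠ u) → #F ≤ κ → u ∉ closure F

/-- The product `v 0 ⊗ (v 1 ⊗ ⋯ ⊗ v n)` on `K^(n+1)`: `A` belongs to it iff for `v 0`-most `x`
the section of `A` at `x` belongs to the product of the remaining factors. -/
def tensor {K : Type} : (n : ℕ) → (Fin (n + 1) → Ultrafilter K) → Ultrafilter (Fin (n + 1) → K)
  | 0, v => (v 0).map fun x _ => x
  | n + 1, v => (v 0).bind fun x => (tensor n (Fin.tail v)).map (Fin.cons x)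

lemma two {κ : Cardinal.{0}} {u : Ultrafilter ℕ} (hu : WeakP κ u) {K : Type} (hK : #K ≤ κ)
    (v : Ultrafilter K) (w : K → Ultrafilter ℕ) (h : v.bind w = u) :
    LeRK u v ∨ ∃ x, w x = u := by
  classical
  by_contra hn
  push Not at hn
  have ht : Tendsto w v (𝓝 u) := by
    refine (ultrafilterBasis_is_basis.nhds_hasBasis.tendsto_right_iff).2 ?_
    rintro _ ⟨⟨S, rfl⟩, hS⟩
    subst h
    exact hS
  have hF : {x | Free (w x)} ∉ v := fun hm =>
    hu.2 (w '' {x | Free (w x)}) (by rintro _ ⟨x, hx, rfl⟩; exact ⟨hx, hn.2 x⟩)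
      (mk_image_le.trans ((mk_set_le _).trans hK))
      (mem_closure_of_tendsto ht (mem_of_superset (f := (v : Filter K)) hm fun x hx =>
        mem_image_of_mem w hx))
  have : ∀ x, ∃ n, ¬ Free (w x) → w x = pure n := fun x => by
    by_cases hx : Free (w x)
    · exact ⟨0, fun h => absurd hx h⟩
    · obtain ⟨n, hn⟩ := not_forall.1 hx
      exact ⟨n, fun _ => not_not.1 hn⟩
  choose g hg using this
  refine hn.1 ⟨g, (Ultrafilter.eq_of_le fun S hS => ?_).symm⟩
  subst h
  refine mem_of_superset (f := (v : Filter K))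
    (inter_mem hS (Ultrafilter.compl_mem_iff_notMem.2 hF)) fun x hx => ?_
  change S ∈ w x
  rw [hg x hx.2]
  exact hx.1

theorem result (κ : Cardinal.{0}) (K : Type) (hK : #K = κ) (u : Ultrafilter ℕ) (hu : WeakP κ u)
    (n : ℕ) (v : Fin (n + 1) → Ultrafilter K) (h : LeRK u (tensor n v)) : ∃ k, LeRK u (v k) := by
  induction n with
  | zero =>
    obtain ⟨f, hf⟩ := h
    exact ⟨0, _, (Ultrafilter.map_map _ _ _).symm.trans hf⟩
  | succ n ih =>
    obtain ⟨f, hf⟩ := h
    rcases two hu hK.le (v 0) (fun x => (tensor n (Fin.tail v)).map (f ∘ Fin.cons x))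
      (Ultrafilter.ext fun S => by rw [← hf]; rfl) with h | ⟨x, hx⟩
    · exact ⟨0, h⟩
    · obtain ⟨k, hk⟩ := ih (Fin.tail v) ⟨_, hx⟩
      exact ⟨k.succ, hk⟩

end Pool.Agent.Results.MP_96acc4_lc.Prime
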